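import Mathlib
import Pool.Agent.Run7.h385.RatCurve

set_option autoImplicit false

/-!
# Varieties with a Zariski dense union of rational curves have arithmetic order 0
-/

open Run7.h385
open Pool.Agent.Helper259.AbsHt (Qbar)

/-- If the union of the rational curves of a projective variety `X` over a number field `K` is
Zariski dense in `X`, then `X` has arithmetic order `0`, for every ample height `H`. -/
theorem Pool.Agent.Results.MP_a9b39e_nt.DenseRationalCurves.result
    (K : IntermediateField ℚ Qbar) (hK : FiniteDimensional ℚ K) (n : ℕ) (X : Set (PSpace n))
    (hX : IsVarietyOver K X) (H : PSpace n → ℝ) (hH : IsAmpleHeight X H)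
    (hd : ZariskiDenseIn (rationalLocus X) X) :
    HasOrder K X H 0 :=
  order_zero hX hd hH
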