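import Mathlib
import Pool.Agent.Run7.h385.GroupOrder

set_option autoImplicit false

/-!
# Varieties with a Zariski dense special locus have no arithmetic order `≥ 2`
-/

open Run7.h385
open Pool.Agent.Helper259.AbsHt (Qbar)

/-- If the special locus of Lang of a projective variety `X` over a number field `K` (the union of
the images of all nonconstant rational maps from group varieties over `Qbar` to `X`) is Zariski
dense in `X`, then the arithmetic order of `X`, for any ample height `H`, can only be `0` or `1`: it
is not an integer `a ≥ 2`, and it is not `∞`. -/
theorem Pool.Agent.Results.MP_a9b39e_nt.DenseSpecialLocus.result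
    (K : IntermediateField ℚ Qbar) (hK : FiniteDimensional ℚ K) (n : ℕ) (X : Set (PSpace n))
    (_hX : IsVarietyOver K X) (H : PSpace n → ℝ) (hH : IsAmpleHeight X H)
    (hd : ZariskiDenseIn (groupLocus X) X) :
    (∀ a : ℕ, HasOrder K X H a → a ≤ 1) ∧ ¬ HasOrderTop K X H :=
  order_le_one hd hH
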