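import Mathlib
import Pool.Agent.Run7.h385.AbOrder

set_option autoImplicit false

/-!
# Varieties of maximal Albanese dimension with a Zariski dense special locus have arithmetic order 1
-/

open Run7.h385
open Pool.Agent.Helper259.AbsHt (Qbar)

/-- Let `X` be a projective variety over a number field `K` with a generically finite rational map
to an abelian variety `A` over `Qbar` (so `X` has maximal Albanese dimension), `A` being given in a
projective model with addition forms of bidegree `(2, 2)`. If the special locus of Lang of `X` is
Zariski dense in `X`, then the arithmetic order of `X` exists and is equal to `1`, for any ample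
height `H`. -/
theorem Pool.Agent.Results.MP_a9b39e_nt.OrderOneOverAbelian.result
    (K : IntermediateField ℚ Qbar) (hK : FiniteDimensional ℚ K) (n : ℕ) (X : Set (PSpace n))
    (hX : IsVarietyOver K X) (H : PSpace n → ℝ) (hH : IsAmpleHeight X H)
    (hd : ZariskiDenseIn (groupLocus X) X)
    (N : ℕ) (A : Set (PSpace N)) (add : PSpace N → PSpace N → PSpace N)
    (neg : PSpace N → PSpace N) (zero : PSpace N) (hA : IsAbelianModel A add neg zero)
    (f : Fin (N + 1) → MvPolynomial (Fin (n + 1)) Qbar) (hf : IsGenFiniteRationalMap X A f) :
    HasOrder K X H 1 :=
  ab_order hX hH hd hA hf
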