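import Mathlib
import Pool.Agent.Run7.h385.AbPositive

set_option autoImplicit false

/-!
# Varieties of maximal Albanese dimension do not have arithmetic order 0
-/

open Run7.h385
open Pool.Agent.Helper259.AbsHt (Qbar)

/-- Let `X` be a projective variety over a number field `K` with a generically finite rational map
to an abelian variety `A` over `Qbar` (so `X` has maximal Albanese dimension), `A` being given in a
projective model with addition forms of bidegree `(2, 2)`. Then the arithmetic order of `X`, for any
ample height `H`, is not `0`: if it is an integer `a`, then `a ≥ 1`. -/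
theorem Pool.Agent.Results.MP_a9b39e_nt.PositiveOrderOverAbelian.result
    (K : IntermediateField ℚ Qbar) (n : ℕ) (X : Set (PSpace n))
    (hX : IsVarietyOver K X) (H : PSpace n → ℝ) (hH : IsAmpleHeight X H)
    (N : ℕ) (A : Set (PSpace N)) (add : PSpace N → PSpace N → PSpace N)
    (neg : PSpace N → PSpace N) (zero : PSpace N) (hA : IsAbelianModel A add neg zero)
    (f : Fin (N + 1) → MvPolynomial (Fin (n + 1)) Qbar) (hf : IsGenFiniteRationalMap X A f)
    (a : ℕ) (ha : HasOrder K X H a) : 1 ≤ a :=
  ab_positive hX hH hA hf a ha
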